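import Pool.Agent.Y746.OM.Stm

/-!
# OM-RK: the choice of the resonator (Rankin's trick)
-/

set_option autoImplicit false

namespace Pool.Agent.Y495.OM

open Finset Pool.Agent.Y746.OM

/-- weight of the sets with large product -/
noncomputable def Wt (P : Finset ℕ) (f : ℕ → ℝ) (Y : ℝ) : ℝ :=
  ∑ S ∈ P.powerset.filter (fun S => Y < (qS S : ℝ)), ∏ p ∈ S, f p

lemma rankin {P : Finset ℕ} {f : ℕ → ℝ} {Y a : ℝ} (hf : ∀ p ∈ P, 0 ≤ f p)
    (hY : 0 < Y) (ha : 0 ≤ a) :
    Wt P f Y ≤ Y ^ (-a) * ∏ p ∈ P, (1 + f p * (p : ℝ) ^ a) := by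
  classical
  rw [Finset.prod_one_add, Finset.mul_sum]
  unfold Wt
  have hYa : 0 < Y ^ (-a) := Real.rpow_pos_of_pos hY _
  refine le_trans (Finset.sum_le_sum (g := fun S => Y ^ (-a) * ∏ p ∈ S, (f p * (p : ℝ) ^ a))
    fun S hS => ?_) (Finset.sum_le_sum_of_subset_of_nonneg (Finset.filter_subset _ _)
      fun S hS _ => ?_)
  · obtain ⟨hS1, hS2⟩ := Finset.mem_filter.1 hS
    have hS1' := Finset.mem_powerset.1 hS1
    have h0 : 0 ≤ ∏ p ∈ S, f p := Finset.prod_nonneg fun p hp => hf p (hS1' hp)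
    have h1 : ∏ p ∈ S, ((p : ℝ) ^ a) = (qS S : ℝ) ^ a := by
      rw [Real.finsetProd_rpow S (fun p => (p : ℝ)) (fun p _ => Nat.cast_nonneg p)]
      unfold qS
      rw [Nat.cast_prod]
    have h2 : Y ^ a ≤ (qS S : ℝ) ^ a := Real.rpow_le_rpow hY.le hS2.le ha
    have h3 : 1 ≤ Y ^ (-a) * (qS S : ℝ) ^ a := by
      rw [Real.rpow_neg hY.le, ← div_eq_inv_mul, one_le_div (Real.rpow_pos_of_pos hY _)]
      exact h2
    show ∏ p ∈ S, f p ≤ Y ^ (-a) * ∏ p ∈ S, (f p * (p : ℝ) ^ a)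
    rw [Finset.prod_mul_distrib, h1]
    calc ∏ p ∈ S, f p = 1 * ∏ p ∈ S, f p := (one_mul _).symm
      _ ≤ (Y ^ (-a) * (qS S : ℝ) ^ a) * ∏ p ∈ S, f p := mul_le_mul_of_nonneg_right h3 h0
      _ = _ := by ring
  · have hS' := Finset.mem_powerset.1 hS
    exact mul_nonneg hYa.le (Finset.prod_nonneg fun p hp =>
      mul_nonneg (hf p (hS' hp)) (Real.rpow_nonneg (Nat.cast_nonneg p) _))

lemma prod_exp_bound {P : Finset ℕ} {x A : ℕ → ℝ} (hx : ∀ p ∈ P, 0 ≤ x p)
    (hA : ∀ p ∈ P, 1 ≤ A p) :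
    ∏ p ∈ P, (1 + x p * A p) ≤
      (∏ p ∈ P, (1 + x p)) * Real.exp (∑ p ∈ P, x p * (A p - 1)) := by
  rw [Real.exp_sum, ← Finset.prod_mul_distrib]
  refine Finset.prod_le_prod (fun p hp => ?_) fun p hp => ?_
  · have := hx p hp; have := hA p hp; positivity
  · have h1 := hx p hp
    have h2 : 0 ≤ A p - 1 := by linarith [hA p hp]
    have h3 : 0 ≤ x p * (A p - 1) := mul_nonneg h1 h2
    have h4 := Real.add_one_le_exp (x p * (A p - 1))
    calc 1 + x p * A p ≤ (1 + x p) * (x p * (A p - 1) + 1) := by nlinarith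
      _ ≤ _ := mul_le_mul_of_nonneg_left h4 (by linarith)

lemma N0_add (P : Finset ℕ) (r : ℕ → ℝ) (Q : ℝ) :
    N0 P r Q + Wt P (fun p => r p ^ 2) Q = ∏ p ∈ P, (1 + r p ^ 2) := by
  classical
  rw [Finset.prod_one_add]
  unfold N0 Wt FS
  rw [← Finset.sum_filter_add_sum_filter_not P.powerset (fun S => (qS S : ℝ) ≤ Q)]
  simp only [not_le]

lemma N1_ge {P : Finset ℕ} {r : ℕ → ℝ} {Q : ℝ} {p : ℕ} (hp : p ∈ P) :
    (∏ q ∈ P, (1 + r q ^ 2)) / (1 + r p ^ 2) - Wt P (fun q => r q ^ 2) (Q / p) ≤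
      N1 P r Q p := by
  classical
  have h0 : 0 < 1 + r p ^ 2 := by positivity
  have h1 : (∏ q ∈ P, (1 + r q ^ 2)) / (1 + r p ^ 2) = ∏ q ∈ P.erase p, (1 + r q ^ 2) := by
    rw [← Finset.mul_prod_erase P (fun q => 1 + r q ^ 2) hp]
    field_simp
  rw [h1, Finset.prod_one_add,
    ← Finset.sum_filter_add_sum_filter_not (P.erase p).powerset (fun S => (qS S : ℝ) ≤ Q / p)]
  have h2 : ∑ S ∈ (P.erase p).powerset.filter (fun S => (qS S : ℝ) ≤ Q / p), ∏ q ∈ S, r q ^ 2 ≤
      N1 P r Q p := by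
    unfold N1 FS
    refine Finset.sum_le_sum_of_subset_of_nonneg (fun S hS => ?_)
      fun S _ _ => Finset.prod_nonneg fun q _ => sq_nonneg _
    obtain ⟨h3, h4⟩ := Finset.mem_filter.1 hS
    have h5 := Finset.mem_powerset.1 h3
    rw [Finset.mem_filter, Finset.mem_filter, Finset.mem_powerset]
    exact ⟨⟨h5.trans (Finset.erase_subset _ _), h4⟩, fun h6 => Finset.notMem_erase p P (h5 h6)⟩
  have h3 : ∑ S ∈ (P.erase p).powerset.filter (fun S => ¬ (qS S : ℝ) ≤ Q / p), ∏ q ∈ S, r q ^ 2 ≤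
      Wt P (fun q => r q ^ 2) (Q / p) := by
    unfold Wt
    refine Finset.sum_le_sum_of_subset_of_nonneg (fun S hS => ?_)
      fun S _ _ => Finset.prod_nonneg fun q _ => sq_nonneg _
    obtain ⟨h3, h4⟩ := Finset.mem_filter.1 hS
    have h5 := Finset.mem_powerset.1 h3
    rw [Finset.mem_filter, Finset.mem_powerset]
    exact ⟨h5.trans (Finset.erase_subset _ _), not_le.1 h4⟩
  linarith

lemma Wt_nonneg (P : Finset ℕ) (r : ℕ → ℝ) (Y : ℝ) : 0 ≤ Wt P (fun q => r q ^ 2) Y :=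
  Finset.sum_nonneg fun S _ => Finset.prod_nonneg fun q _ => sq_nonneg _

/-- the tail of the resonator -/
lemma tail {P : Finset ℕ} {T η lam y : ℝ} (hη : 0 < η)
    (hL : 10 ≤ Real.log T) (hX : 8 ≤ η * Real.log T / Real.log (Real.log T))
    (hP : ∀ p ∈ P, p.Prime ∧ Real.log T < p ∧ (p : ℝ) ≤ Real.log T ^ 2)
    (hlam : lam ^ 2 = η * Real.log T / Real.log (Real.log T) / 100)
    (hlog : ∑ p ∈ P, Real.log p / p ≤ 2 * Real.log (Real.log T))
    (hy1 : 1 ≤ y) (hy2 : y ≤ Real.log T ^ 2) (hT : 0 < T) :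
    Wt P (fun p => (lam / Real.sqrt p) ^ 2) (T ^ η / y) ≤
      (∏ p ∈ P, (1 + (lam / Real.sqrt p) ^ 2)) / 8 := by
  set L := Real.log T with hLd
  have hL0 : 0 < L := by linarith
  have hLL : 0 < Real.log L := Real.log_pos (by linarith)
  set a : ℝ := 1 / Real.log L with ha
  have ha0 : 0 < a := by rw [ha]; positivity
  have hY : 0 < T ^ η / y := div_pos (Real.rpow_pos_of_pos hT _) (by linarith)
  have h1 := rankin (P := P) (f := fun p => (lam / Real.sqrt p) ^ 2) (Y := T ^ η / y) (a := a)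
    (fun p _ => sq_nonneg _) hY ha0.le
  have hpos : ∀ p ∈ P, (0 : ℝ) < p ∧ 1 ≤ (p : ℝ) := by
    intro p hp
    have h2 := (hP p hp).2.1
    constructor <;> linarith
  have hA : ∀ p ∈ P, 1 ≤ (p : ℝ) ^ a := fun p hp => Real.one_le_rpow (hpos p hp).2 ha0.le
  have h2 := prod_exp_bound (P := P) (x := fun p => (lam / Real.sqrt p) ^ 2)
    (A := fun p => (p : ℝ) ^ a) (fun p _ => sq_nonneg _) hA
  set Pw := ∏ p ∈ P, (1 + (lam / Real.sqrt p) ^ 2) with hPw
  have hPw0 : 0 < Pw := Finset.prod_pos fun p _ => by positivity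
  set X := η * L / Real.log L with hXd
  -- the exponent
  have he2 : Real.exp 2 ≤ 8 := by
    have h3 := Real.exp_one_lt_d9
    have h4 : Real.exp 2 = Real.exp 1 * Real.exp 1 := by rw [← Real.exp_add]; norm_num
    have h5 := Real.exp_pos 1
    rw [h4]
    nlinarith
  have h3 : ∑ p ∈ P, (lam / Real.sqrt p) ^ 2 * ((p : ℝ) ^ a - 1) ≤ X / 4 := by
    have h4 : ∀ p ∈ P, (lam / Real.sqrt p) ^ 2 * ((p : ℝ) ^ a - 1) ≤
        lam ^ 2 * a * 8 * (Real.log p / p) := by
      intro p hp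
      obtain ⟨hp0, hp1⟩ := hpos p hp
      have h5 : (lam / Real.sqrt p) ^ 2 = lam ^ 2 / p := by
        rw [div_pow, Real.sq_sqrt hp0.le]
      have hlogp : 0 ≤ Real.log p := Real.log_nonneg hp1
      have hlogp2 : Real.log p ≤ 2 * Real.log L := by
        have h6 := Real.log_le_log hp0 (hP p hp).2.2
        rw [Real.log_pow] at h6
        exact_mod_cast h6
      have h6 : (p : ℝ) ^ a = Real.exp (a * Real.log p) := by
        rw [Real.rpow_def_of_pos hp0, mul_comm]
      have h7 : a * Real.log p ≤ 2 := by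
        rw [ha, one_div, inv_mul_le_iff₀ hLL]
        linarith
      have h8 : 0 ≤ a * Real.log p := by positivity
      have h9 : Real.exp (a * Real.log p) - 1 ≤ a * Real.log p * Real.exp (a * Real.log p) := by
        have h10 := Real.add_one_le_exp (-(a * Real.log p))
        have h11 := Real.exp_pos (a * Real.log p)
        have h12 : Real.exp (a * Real.log p) * Real.exp (-(a * Real.log p)) = 1 := by
          rw [← Real.exp_add, add_neg_cancel, Real.exp_zero]
        nlinarith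
      have h10 : Real.exp (a * Real.log p) ≤ 8 := (Real.exp_le_exp.2 h7).trans he2
      have h11 : (p : ℝ) ^ a - 1 ≤ a * Real.log p * 8 := by
        rw [h6]
        exact h9.trans (mul_le_mul_of_nonneg_left h10 h8)
      rw [h5]
      calc lam ^ 2 / p * ((p : ℝ) ^ a - 1) ≤ lam ^ 2 / p * (a * Real.log p * 8) :=
            mul_le_mul_of_nonneg_left h11 (by positivity)
        _ = _ := by ring
    have h5 := Finset.sum_le_sum h4
    rw [← Finset.mul_sum] at h5
    have h6 : lam ^ 2 * a * 8 * ∑ p ∈ P, Real.log p / p ≤ lam ^ 2 * a * 8 * (2 * Real.log L) :=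
      mul_le_mul_of_nonneg_left hlog (by positivity)
    have h7 : lam ^ 2 * a * 8 * (2 * Real.log L) = 16 * lam ^ 2 := by
      rw [ha]; field_simp; ring
    rw [h7] at h6
    have hX0 : 0 ≤ X := by linarith
    have h8 : lam ^ 2 = X / 100 := hlam
    linarith
  have h4 : (T ^ η / y) ^ (-a) ≤ Real.exp (2 - X) := by
    rw [Real.rpow_def_of_pos hY, Real.exp_le_exp, Real.log_div (Real.rpow_pos_of_pos hT _).ne'
      (by linarith), Real.log_rpow hT]
    have h5 : Real.log y ≤ 2 * Real.log L := by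
      have h6 := Real.log_le_log (by linarith) hy2
      rw [Real.log_pow] at h6
      exact_mod_cast h6
    have h6 : a * Real.log y ≤ 2 := by
      rw [ha, one_div, inv_mul_le_iff₀ hLL]
      linarith
    have h7 : η * L * a = X := by
      rw [ha, hXd]; ring
    have h8 : (η * Real.log T - Real.log y) * -a = a * Real.log y - η * L * a := by
      rw [← hLd]; ring
    rw [h8, h7]
    linarith
  have h5 : Real.exp (2 - X) * Real.exp (X / 4) ≤ 1 / 8 := by
    rw [← Real.exp_add]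
    have h6 : 2 - X + X / 4 ≤ -4 := by linarith
    refine (Real.exp_le_exp.2 h6).trans ?_
    rw [Real.exp_neg]
    have h7 := Real.quadratic_le_exp_of_nonneg (x := 4) (by norm_num)
    rw [inv_le_comm₀ (Real.exp_pos _) (by norm_num)]
    norm_num at h7 ⊢
    linarith
  calc Wt P (fun p => (lam / Real.sqrt p) ^ 2) (T ^ η / y)
      ≤ (T ^ η / y) ^ (-a) * ∏ p ∈ P, (1 + (lam / Real.sqrt p) ^ 2 * (p : ℝ) ^ a) := h1
    _ ≤ Real.exp (2 - X) * (Pw * Real.exp (X / 4)) := by
        refine mul_le_mul h4 (h2.trans (mul_le_mul_of_nonneg_left (Real.exp_le_exp.2 h3) hPw0.le))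
          (Finset.prod_nonneg fun p hp => ?_) (Real.exp_pos _).le
        have := hA p hp
        positivity
    _ = (Real.exp (2 - X) * Real.exp (X / 4)) * Pw := by ring
    _ ≤ 1 / 8 * Pw := mul_le_mul_of_nonneg_right h5 hPw0.le
    _ = Pw / 8 := by ring

theorem t_RK (hNT : S_NT) : S_RK := by
  classical
  intro h η hh hη
  obtain ⟨c₀, X0, hc₀, hX0, hN⟩ := hNT h hh
  set L0 : ℝ := max X0 (max ((16 / η) ^ 2) (Real.exp (max η 1))) with hL0
  refine ⟨c₀ * Real.sqrt (η / 100) / 4, 1 + 8 * Real.sqrt (η / 100), Real.exp L0,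
    by positivity, by positivity, ?_, ?_⟩
  · have h1 : 10 ≤ L0 := hX0.trans (le_max_left _ _)
    have h2 := Real.add_one_le_exp L0
    linarith
  intro T hT
  have hT0 : 0 < T := lt_of_lt_of_le (Real.exp_pos _) hT
  set L := Real.log T with hLd
  have hLL0 : L0 ≤ L := by
    rw [hLd, Real.le_log_iff_exp_le hT0]
    exact hT
  have hLX : X0 ≤ L := (le_max_left _ _).trans hLL0
  have hL10 : 10 ≤ L := hX0.trans hLX
  have hLη : (16 / η) ^ 2 ≤ L := ((le_max_left _ _).trans (le_max_right _ _)).trans hLL0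
  have hLe : Real.exp (max η 1) ≤ L := ((le_max_right _ _).trans (le_max_right _ _)).trans hLL0
  have hLpos : 0 < L := by linarith
  have hLL1 : max η 1 ≤ Real.log L := by
    rw [Real.le_log_iff_exp_le hLpos]
    exact hLe
  have hLLη : η ≤ Real.log L := (le_max_left _ _).trans hLL1
  have hLL1' : 1 ≤ Real.log L := (le_max_right _ _).trans hLL1
  have hLLpos : 0 < Real.log L := by linarith
  have hsq : 16 / η ≤ Real.sqrt L := Real.le_sqrt_of_sq_le hLη
  have hlogsq : Real.log L ≤ 2 * Real.sqrt L := by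
    have h1 : 0 < Real.sqrt L := Real.sqrt_pos.2 hLpos
    have h2 := Real.log_le_sub_one_of_pos h1
    rw [Real.log_sqrt hLpos.le] at h2
    linarith
  have hX : 8 ≤ η * L / Real.log L := by
    rw [le_div_iff₀ hLLpos]
    have h1 : 16 ≤ η * Real.sqrt L := by
      rw [div_le_iff₀ hη] at hsq
      linarith
    have h2 : Real.sqrt L * Real.sqrt L = L := Real.mul_self_sqrt hLpos.le
    have h3 : 0 < Real.sqrt L := Real.sqrt_pos.2 hLpos
    nlinarith
  set P := (Icc 1 ⌊L ^ 2⌋₊).filter (fun p : ℕ => p.Prime ∧ L < (p : ℝ)) with hPd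
  obtain ⟨hN1, hN2, hN3⟩ := hN L hLX
  have hP : ∀ p ∈ P, p.Prime ∧ L < p ∧ (p : ℝ) ≤ L ^ 2 := by
    intro p hp
    rw [hPd, Finset.mem_filter, Finset.mem_Icc] at hp
    exact ⟨hp.2.1, hp.2.2, (Nat.le_floor_iff (by positivity)).1 hp.1.2⟩
  set lam : ℝ := Real.sqrt (η * L / Real.log L / 100) with hlamd
  have hlam0 : 0 ≤ lam := Real.sqrt_nonneg _
  have hlam2 : lam ^ 2 = η * L / Real.log L / 100 := Real.sq_sqrt (by positivity)
  have hlamL : lam ^ 2 ≤ L := by
    rw [hlam2, div_le_iff₀ (by norm_num), div_le_iff₀ hLLpos]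
    nlinarith
  have hlamE : lam = Real.sqrt (η / 100) * Real.sqrt (L / Real.log L) := by
    rw [hlamd, ← Real.sqrt_mul (by positivity)]
    congr 1
    ring
  set r : ℕ → ℝ := fun p => lam / Real.sqrt p with hr
  set Pw := ∏ p ∈ P, (1 + r p ^ 2) with hPw
  have hPw0 : 0 < Pw := Finset.prod_pos fun p _ => by positivity
  have htail : ∀ y : ℝ, 1 ≤ y → y ≤ L ^ 2 → Wt P (fun p => r p ^ 2) (T ^ η / y) ≤ Pw / 8 :=
    fun y hy1 hy2 => tail hη hL10 hX hP hlam2 hN3 hy1 hy2 hT0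
  have hN0a := N0_add P r (T ^ η)
  rw [← hPw] at hN0a
  have hW0 := Wt_nonneg P r (T ^ η)
  have hW1 := htail 1 le_rfl (by nlinarith)
  rw [div_one] at hW1
  have hN0le : N0 P r (T ^ η) ≤ Pw := by linarith
  have hN0ge : Pw / 2 ≤ N0 P r (T ^ η) := by linarith
  have hrp : ∀ p ∈ P, r p ^ 2 ≤ 1 := by
    intro p hp
    have h1 := (hP p hp).2.1
    have h2 : (0 : ℝ) < p := by linarith
    show (lam / Real.sqrt p) ^ 2 ≤ 1
    rw [div_pow, Real.sq_sqrt h2.le, div_le_one h2]
    linarith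
  have hN1ge : ∀ p ∈ P, Pw / 4 ≤ N1 P r (T ^ η) p := by
    intro p hp
    have h1 := N1_ge (r := r) (Q := T ^ η) hp
    have h2 := htail p (by linarith [(hP p hp).2.1]) (hP p hp).2.2
    have h3 : Pw / 2 ≤ Pw / (1 + r p ^ 2) :=
      div_le_div_of_nonneg_left hPw0.le (by positivity) (by linarith [hrp p hp])
    rw [← hPw] at h1
    linarith
  refine ⟨P, r, fun p hp => ⟨(hP p hp).1, (hP p hp).2.1.le, (hP p hp).2.2⟩,
    fun p _ => div_nonneg hlam0 (Real.sqrt_nonneg _), ?_, ?_⟩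
  · have h1 : ∀ p ∈ P, lam * (Pw / 4) * (|Real.sin (h * Real.log p / 2)| / p) ≤
        |Real.sin (h * Real.log p / 2)| / Real.sqrt p * r p * N1 P r (T ^ η) p := by
      intro p hp
      have h2 : (0 : ℝ) < p := by linarith [(hP p hp).2.1]
      have h3 : Real.sqrt p * Real.sqrt p = p := Real.mul_self_sqrt h2.le
      have h4 : 0 < Real.sqrt p := Real.sqrt_pos.2 h2
      have h5 : |Real.sin (h * Real.log p / 2)| / Real.sqrt p * r p =
          lam * (|Real.sin (h * Real.log p / 2)| / p) := by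
        show |Real.sin (h * Real.log p / 2)| / Real.sqrt p * (lam / Real.sqrt p) = _
        rw [div_mul_div_comm, h3]
        ring
      rw [h5]
      have h6 : 0 ≤ lam * (|Real.sin (h * Real.log p / 2)| / p) := by positivity
      calc lam * (Pw / 4) * (|Real.sin (h * Real.log p / 2)| / p) =
            lam * (|Real.sin (h * Real.log p / 2)| / p) * (Pw / 4) := by ring
        _ ≤ _ := mul_le_mul_of_nonneg_left (hN1ge p hp) h6
    have h2 := Finset.sum_le_sum h1
    rw [← Finset.mul_sum] at h2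
    refine le_trans ?_ h2
    have h3 : lam * (Pw / 4) * c₀ ≤ lam * (Pw / 4) *
        ∑ p ∈ P, |Real.sin (h * Real.log p / 2)| / p :=
      mul_le_mul_of_nonneg_left hN1 (by positivity)
    refine le_trans ?_ h3
    have h4 : c₀ * Real.sqrt (η / 100) / 4 * Real.sqrt (L / Real.log L) * N0 P r (T ^ η) =
        lam * c₀ / 4 * N0 P r (T ^ η) := by rw [hlamE]; ring
    rw [h4]
    calc lam * c₀ / 4 * N0 P r (T ^ η) ≤ lam * c₀ / 4 * Pw :=
          mul_le_mul_of_nonneg_left hN0le (by positivity)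
      _ = _ := by ring
  · have h1 : EP P r ≤ Pw * Real.exp (8 * lam) := by
      have h2 : EP P r ≤ ∏ p ∈ P, ((1 + r p ^ 2) * Real.exp (8 * r p / Real.sqrt p)) := by
        unfold EP
        refine Finset.prod_le_prod (fun p _ => ?_) fun p _ => ?_
        · have : 0 ≤ r p := div_nonneg hlam0 (Real.sqrt_nonneg _)
          positivity
        · have h3 : 0 ≤ r p := div_nonneg hlam0 (Real.sqrt_nonneg _)
          have h4 : 0 ≤ 8 * r p / Real.sqrt p := by positivity
          have h5 := Real.add_one_le_exp (8 * r p / Real.sqrt p)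
          calc 1 + r p ^ 2 + 8 * r p / Real.sqrt p ≤
                (1 + r p ^ 2) * (8 * r p / Real.sqrt p + 1) := by nlinarith [sq_nonneg (r p)]
            _ ≤ _ := mul_le_mul_of_nonneg_left h5 (by positivity)
      rw [Finset.prod_mul_distrib, ← Real.exp_sum] at h2
      refine h2.trans (mul_le_mul_of_nonneg_left (Real.exp_le_exp.2 ?_) hPw0.le)
      have h3 : ∑ p ∈ P, 8 * r p / Real.sqrt p = 8 * lam * ∑ p ∈ P, (1 : ℝ) / p := by
        rw [Finset.mul_sum]
        refine Finset.sum_congr rfl fun p hp => ?_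
        have h4 : (0 : ℝ) < p := by linarith [(hP p hp).2.1]
        have h5 : Real.sqrt p * Real.sqrt p = p := Real.mul_self_sqrt h4.le
        show 8 * (lam / Real.sqrt p) / Real.sqrt p = _
        rw [mul_div_assoc, div_div, h5]
        ring
      rw [h3]
      calc 8 * lam * ∑ p ∈ P, (1 : ℝ) / p ≤ 8 * lam * 1 :=
            mul_le_mul_of_nonneg_left hN2 (by positivity)
        _ = _ := mul_one _
    have h2 : lam ≤ Real.sqrt (η / 100) * Real.sqrt L := by
      rw [hlamE]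
      refine mul_le_mul_of_nonneg_left (Real.sqrt_le_sqrt ?_) (Real.sqrt_nonneg _)
      exact div_le_self hLpos.le hLL1'
    have h3 : 1 ≤ Real.sqrt L := Real.one_le_sqrt.2 (by linarith)
    have h4 : (2 : ℝ) ≤ Real.exp (Real.sqrt L) := by
      have := Real.add_one_le_exp (Real.sqrt L)
      linarith
    have h5 : Real.exp (8 * lam) ≤ Real.exp (8 * Real.sqrt (η / 100) * Real.sqrt L) :=
      Real.exp_le_exp.2 (by nlinarith)
    have h6 : Real.exp ((1 + 8 * Real.sqrt (η / 100)) * Real.sqrt L) =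
        Real.exp (Real.sqrt L) * Real.exp (8 * Real.sqrt (η / 100) * Real.sqrt L) := by
      rw [← Real.exp_add]; congr 1; ring
    rw [h6]
    have h7 : Pw ≤ Real.exp (Real.sqrt L) * N0 P r (T ^ η) := by
      have h8 : 0 ≤ N0 P r (T ^ η) := by linarith
      nlinarith
    calc EP P r ≤ Pw * Real.exp (8 * lam) := h1
      _ ≤ (Real.exp (Real.sqrt L) * N0 P r (T ^ η)) *
          Real.exp (8 * Real.sqrt (η / 100) * Real.sqrt L) :=
        mul_le_mul h7 h5 (Real.exp_pos _).le (hPw0.le.trans h7)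
      _ = _ := by ring

end Pool.Agent.Y495.OM
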